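import Pool.Agent.Lib.MP_b5021c_nt.H47.Mut
import Pool.Agent.Lib.MP_b5021c_nt.B.H63.F5c
import Pool.Agent.Lib.MP_b5021c_nt.B.H58.Rku

/-!
# Board b5, stage 3: distinguished rays (helper47)

A ray with a space `US` of maximal rank; the rays outside this space are mutual with it and again
distinguished. If the drop is at least two then every double closing has full rank.
-/

namespace Pool.Agent.B5.H47

open scoped LaurentPolynomial
open AddMonoidAlgebra Pool.Agent.B5.H71

set_option linter.unusedSectionVars false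

section Gen

variable {O : Type} [CommRing O] [IsDomain O] [IsPrincipalIdealRing O] [Coef O] {P : Type}
  [Fintype P] [DecidableEq P] {L : Type} [AddCommGroup L] [Module.Free ℤ L] [Module.Finite ℤ L]

/-- A distinguished ray: `finrank US` is maximal, for the loads `eb`. -/
structure Dst (phi : L →+ (P → ℤ)) (D : AO O L) (eb : L → (RO O)ˣ) (S : L) : Prop where
  inj : Function.Injective phi
  bin : ∀ a ∈ supp D, Bin phi a
  ray : Ray D S
  max : ∀ b, Ray D b →
    Module.finrank ℤ (US (eb b) b D) ≤ Module.finrank ℤ (US (eb S) S D)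

theorem sat_US (e : (RO O)ˣ) (b : L) (D : AO O L) : Sat (US e b D) := H63.satur_sat _

/-- Symmetry. -/
theorem Dst.symm (f3 : F3S) {phi : L →+ (P → ℤ)} {D : AO O L} {eb : L → (RO O)ˣ} {S : L}
    (h : Dst phi D eb S) {T : L} (rT : Ray D T) (hT : T ∉ US (eb S) S D) :
    S ∉ US (eb T) T D := by
  intro hS
  have h5 := f3 O P L phi D S T (eb S) (eb T) h.inj h.bin h.ray rT hT
  have h6 : US (eb S) S D ≤ US (eb T) T D := by
    refine h5.trans (H63.satur_le ?_)
    rw [sup_le_iff]
    refine ⟨le_rfl, ?_⟩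
    rw [Submodule.span_singleton_le_iff_mem]
    exact hS
  have h7 := H63.finrank_lt_of_sat h6 (sat_US _ _ _) (S_mem (eb T) T D) hT
  have h8 := h.max T rT
  omega

theorem finrank_sup_le (rk' : RkS) (K : Submodule ℤ L) (b : L) :
    Module.finrank ℤ (satur (K ⊔ Submodule.span ℤ {b}) : Submodule ℤ L) ≤
      Module.finrank ℤ K + 1 := by
  have h1 := (rk' L L).2.2.2.2.2.1 (K : Set L) {b}
  have h2 : Module.finrank ℤ (satur (K ⊔ Submodule.span ℤ {b}) : Submodule ℤ L) =
      rk ((K : Set L) ∪ {b}) := by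
    rw [← H58.finrank_satur rk', Submodule.span_union, Submodule.span_eq]
  have h3 : rk (K : Set L) = Module.finrank ℤ K := by
    unfold rk
    rw [Submodule.span_eq]
  have h4 : rk ({b} : Set L) ≤ 1 := by
    by_cases hb : b = 0
    · unfold rk
      rw [hb, Submodule.span_zero_singleton, finrank_bot]
      omega
    · rw [(rk' L L).2.2.2.2.2.2.1 b hb]
  omega

/-- The neighbours of a distinguished ray are distinguished. -/
theorem Dst.nbr (f3 : F3S) (rk' : RkS) {phi : L →+ (P → ℤ)} {D : AO O L} {eb : L → (RO O)ˣ} {S : L}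
    (h : Dst phi D eb S) {T : L} (rT : Ray D T) (hT : T ∉ US (eb S) S D) : Dst phi D eb T := by
  refine ⟨h.inj, h.bin, rT, fun b hb => (h.max b hb).trans ?_⟩
  have h5 := f3 O P L phi D S T (eb S) (eb T) h.inj h.bin h.ray rT hT
  have h6 : T ∈ satur (US (eb T) T D ⊔ Submodule.span ℤ {S}) :=
    H63.le_satur _ (Submodule.mem_sup_left (S_mem (eb T) T D))
  have h7 := H63.finrank_lt_of_sat h5 (sat_US _ _ _) h6 hT
  have h8 := finrank_sup_le rk' (US (eb T) T D) S
  omega

/-- The mutual pair. -/
theorem Dst.mutual (f2 : F2S) (f3 : F3S) {phi : L →+ (P → ℤ)} {D : AO O L} {eb : L → (RO O)ˣ} {S : L}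
    (h : Dst phi D eb S) {T : L} (rT : Ray D T) (hT : T ∉ US (eb S) S D) (i j : P)
    (hi : co phi i S = 1) (hj : co phi j T = 1) : Mut phi D S T (eb S) (eb T) i j := by
  have h1 := h.symm f3 rT hT
  exact ⟨h.inj, h.bin, h.bin S h.ray.1, h.bin T rT.1, hi, hj,
    f2 O P L phi D S T (eb T) h.inj h.bin h.ray rT h1, hT, h1⟩

/-- `US` of a neighbour. -/
theorem Dst.sub (f3 : F3S) {phi : L →+ (P → ℤ)} {D : AO O L} {eb : L → (RO O)ˣ} {S : L}
    (h : Dst phi D eb S) {T : L} (rT : Ray D T) (hT : T ∉ US (eb S) S D) :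
    US (eb T) T D ≤ satur (US (eb S) S D ⊔ Submodule.span ℤ {T}) :=
  f3 O P L phi D T S (eb T) (eb S) h.inj h.bin rT h.ray (h.symm f3 rT hT)

/-- A third ray, independent modulo `US` and `T`. -/
theorem Dst.third (f3 : F3S) (rk' : RkS) {phi : L →+ (P → ℤ)} {D : AO O L} {eb : L → (RO O)ˣ}
    {S : L} (h : Dst phi D eb S) (hrk : rk {b | Ray D b} = Module.finrank ℤ L)
    (hg : Module.finrank ℤ (US (eb S) S D) + 2 ≤ Module.finrank ℤ L)
    {T : L} (hT : T ∉ US (eb S) S D) :
    ∃ R : L, Ray D R ∧ R ∉ US (eb S) S D ∧ (∀ n : ℤ, R + n • T ∉ US (eb S) S D) ∧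
      S ∉ US (eb R) R D ∧ T ∉ US (eb R) R D := by
  obtain ⟨R, rR, hR⟩ : ∃ R, Ray D R ∧ R ∉ satur (US (eb S) S D ⊔ Submodule.span ℤ {T}) := by
    by_contra hcon
    push Not at hcon
    have h1 : Submodule.span ℤ {b | Ray D b} ≤ satur (US (eb S) S D ⊔ Submodule.span ℤ {T}) :=
      Submodule.span_le.mpr fun b hb => hcon b hb
    have h2 := Submodule.finrank_mono h1
    have h3 := finrank_sup_le rk' (US (eb S) S D) T
    have h4 : Module.finrank ℤ (Submodule.span ℤ {b | Ray D b}) = Module.finrank ℤ L := hrk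
    omega
  have hR0 : ∀ n : ℤ, R + n • T ∉ US (eb S) S D := by
    intro n hn
    apply hR
    apply H63.le_satur
    have h1 : R = (R + n • T) + (-n) • T := by rw [neg_smul]; abel
    rw [h1]
    exact Submodule.add_mem _ (Submodule.mem_sup_left hn)
      (Submodule.smul_mem _ _ (Submodule.mem_sup_right (Submodule.mem_span_singleton_self T)))
  have hR1 : R ∉ US (eb S) S D := by
    have := hR0 0
    rwa [zero_smul, add_zero] at this
  refine ⟨R, rR, hR1, hR0, h.symm f3 rR hR1, ?_⟩
  intro hTR
  obtain ⟨n, hn, h2⟩ := h.sub f3 rR hR1 hTR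
  rw [Submodule.mem_sup] at h2
  obtain ⟨x, hx, y, hy, hxy⟩ := h2
  rw [Submodule.mem_span_singleton] at hy
  obtain ⟨c, rfl⟩ := hy
  by_cases hc : c = 0
  · rw [hc, zero_smul, add_zero] at hxy
    exact hT (sat_US _ _ _ n T hn (hxy ▸ hx))
  · apply hR
    refine ⟨c, hc, ?_⟩
    have h3 : c • R = n • T - x := by rw [← hxy]; abel
    rw [h3]
    exact Submodule.sub_mem _
      (Submodule.smul_mem _ _ (Submodule.mem_sup_right (Submodule.mem_span_singleton_self T)))
      (Submodule.mem_sup_left hx)

/-- FULL RANK of every double closing of a pair which has a third mutual ray. -/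
theorem trip (f1 : F1S) (km : KmuS) (rk' : RkS) {phi : L →+ (P → ℤ)} {D : AO O L} {S T : L}
    {eS eT : (RO O)ˣ} {i j : P} (m : Mut phi D S T eS eT i j)
    (hrk : rk {b | Ray D b} = Module.finrank ℤ L)
    {R : L} {eR : (RO O)ˣ} (bR : Bin phi R) (R0 : R ≠ 0) (hDR : D.coeff R ≠ 0)
    (dS : ∀ p, phi R p = 0 ∨ phi S p = 0) (dT : ∀ p, phi R p = 0 ∨ phi T p = 0)
    (hR : ∀ n : ℤ, R + n • T ∉ US eS S D) (hS : S ∉ US eR R D) (hT : T ∉ US eR R D)
    (x y : (RO O)ˣ) (hx : (x : RO O) ≠ 1) (hy : (y : RO O) ≠ 1) :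
    rk (supp (ccl m (eS * x) (eT * y))) + 2 = Module.finrank ℤ L := by
  have hk2 := rk_ker2 rk' m
  have hle := (rk' (Ker (co (phK phi (co phi i)) j)) (Ker (co (phK phi (co phi i)) j))).2.2.1
    (supp (ccl m (eS * x) (eT * y)))
  by_contra hne
  obtain ⟨nu, hnu0, hnS, hnT, hnu⟩ := kill km rk' m (eS * x) (eT * y) (by omega)
  have hSi : phi S i = 1 := m.hS
  have hTj : phi T j = 1 := m.hT
  have hRi : phi R i = 0 := by
    rcases dS i with h | h
    · exact h
    · omega
  have hRj : phi R j = 0 := by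
    rcases dT j with h | h
    · exact h
    · omega
  have hx1 : (1 - (x : RO O)) ≠ 0 := fun h => hx (by linear_combination -h)
  have hy1 : (1 - (y : RO O)) ≠ 0 := fun h => hy (by linear_combination -h)
  -- the value of `nu` at `R`
  have hnR : nu R = 0 := by
    by_contra hnR
    have h1 := hnu R hRi hRj hnR
    rw [Units.val_mul, Units.val_mul] at h1
    obtain ⟨w, r, s, t, hs, ht, hv, hz, _, hU⟩ := nfv f1 m R hRi hRj
    rw [hv] at h1
    have hw : w = 0 := by
      by_contra hw
      have h2 := (hU hw).1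
      apply hR t
      have h3 := Submodule.sub_mem _ h2 (Submodule.smul_mem _ (s : ℤ) (S_mem eS S D))
      have h4 : R + s • S + t • T - (s : ℤ) • S = R + (t : ℤ) • T := by
        rw [natCast_zsmul, natCast_zsmul]; abel
      rw [h4] at h3
      exact h3
    subst hw
    have hr : r = 0 := by
      have h2 : r * ((1 - (x : RO O)) * (1 - (y : RO O))) = 0 := by linear_combination h1
      exact (mul_eq_zero.mp h2).resolve_right (mul_ne_zero hx1 hy1)
    exact hDR (hz rfl hr).1
  apply hnu0
  apply zero_of_rk rk' nu {b | Ray D b} hrk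
  intro c hc
  by_contra hnc
  -- every class with `nu ≠ 0` which is not zero has its exceptional member in both spaces
  have key : ∀ c ∈ supp D, nu c ≠ 0 → ∃ (a : L) (w r : RO O) (s t : ℕ), phi a i = 0 ∧ phi a j = 0 ∧
      (∀ k : L →+ ℤ, k S = 0 → k T = 0 → k a = k c) ∧ (∃ u v : ℤ, c = a + u • S + v • T) ∧
      s ≤ 1 ∧ t ≤ 1 ∧ r ≠ 0 ∧
      D.coeff a = (if s = 0 ∧ t = 0 then w else 0) + r ∧
      (eS : RO O) * D.coeff (a + S) = (if s = 1 ∧ t = 0 then w else 0) - r ∧
      (eT : RO O) * D.coeff (a + T) = (if s = 0 ∧ t = 1 then w else 0) - r ∧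
      (eS : RO O) * (eT : RO O) * D.coeff (a + S + T) = (if s = 1 ∧ t = 1 then w else 0) + r ∧
      a + t • T ∈ US eS S D ∧ (∀ p, phi a p = 0 ∨ (phi S p = 0 ∧ phi T p = 0)) := by
    intro c hc hnc
    obtain ⟨a, hi, hj, hval, hz⟩ := base m c hc
    obtain ⟨w, r, s, t, hs, ht, h00, h10, h01, h11, hU, hdis⟩ := nf f1 m a hi hj
    have h1 := hnu a hi hj (by rw [hval nu hnS hnT]; exact hnc)
    have hv : dco D S T (eS * x) (eT * y) a = w * (x : RO O) ^ s * (y : RO O) ^ t +
        r * (1 - x) * (1 - y) := by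
      have e1 : dco D S T (eS * x) (eT * y) a = D.coeff a + x * ((eS : RO O) * D.coeff (a + S)) +
          y * ((eT : RO O) * D.coeff (a + T)) +
          x * y * ((eS : RO O) * (eT : RO O) * D.coeff (a + S + T)) := by
        rw [dco]; ring
      rw [e1, h00, h10, h01, h11]
      rcases Nat.le_one_iff_eq_zero_or_eq_one.mp hs with rfl | rfl <;>
        rcases Nat.le_one_iff_eq_zero_or_eq_one.mp ht with rfl | rfl <;> simp <;> ring
    rw [Units.val_mul, Units.val_mul, hv] at h1
    have hzero : w = 0 → r = 0 → False := by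
      intro hw hr
      apply hz
      subst hw hr
      have z1 : (eS : RO O) * D.coeff (a + S) = 0 := by rw [h10]; simp
      have z2 : (eT : RO O) * D.coeff (a + T) = 0 := by rw [h01]; simp
      have z3 : (eS : RO O) * (eT : RO O) * D.coeff (a + S + T) = 0 := by rw [h11]; simp
      exact ⟨by rw [h00]; simp, (mul_eq_zero.mp z1).resolve_left eS.ne_zero,
        (mul_eq_zero.mp z2).resolve_left eT.ne_zero,
        (mul_eq_zero.mp z3).resolve_left (mul_ne_zero eS.ne_zero eT.ne_zero)⟩
    have hr : r ≠ 0 := by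
      intro hr
      have h2 : w * ((x : RO O) ^ s * (y : RO O) ^ t) = 0 := by
        rw [hr] at h1; linear_combination h1
      exact hzero ((mul_eq_zero.mp h2).resolve_right
        (mul_ne_zero (pow_ne_zero _ x.ne_zero) (pow_ne_zero _ y.ne_zero))) hr
    have hw : w ≠ 0 := by
      intro hw
      have h2 : r * ((1 - (x : RO O)) * (1 - (y : RO O))) = 0 := by
        rw [hw] at h1; linear_combination h1
      exact hzero hw ((mul_eq_zero.mp h2).resolve_right (mul_ne_zero hx1 hy1))
    have hU1 := (hU hw).1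
    have hU2 : a + t • T ∈ US eS S D := by
      have h3 := Submodule.sub_mem _ hU1 (Submodule.smul_mem _ (s : ℤ) (S_mem eS S D))
      have h4 : a + s • S + t • T - (s : ℤ) • S = a + t • T := by rw [natCast_zsmul]; abel
      rwa [h4] at h3
    have hex : ∃ u v : ℤ, c = a + u • S + v • T := by
      refine ⟨phi c i, phi c j, ?_⟩
      by_contra hcon
      obtain ⟨k, hk1, hk2⟩ : ∃ k : L →+ ℤ, True ∧ k c ≠ k (a + phi c i • S + phi c j • T) := by
        by_contra h5
        push Not at h5
        apply hcon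
        apply m.inj
        funext p
        exact h5 (co phi p) trivial
      apply hk2
      have hTi : phi T i = 0 := m.Tij
      have hSj : phi S j = 0 := m.swap.Tij
      let k' : L →+ ℤ := k - (k S) • co phi i - (k T) • co phi j
      have n1 : k' S = 0 := by
        change k S - (k S) • phi S i - (k T) • phi S j = 0
        rw [hSi, hSj]; simp
      have n2 : k' T = 0 := by
        change k T - (k S) • phi T i - (k T) • phi T j = 0
        rw [hTi, hTj]; simp
      have n3 := hval k' n1 n2
      have n4 : k' a = k a := by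
        change k a - (k S) • phi a i - (k T) • phi a j = k a
        rw [hi, hj]; simp
      have n5 : k' c = k c - (k S) • phi c i - (k T) • phi c j := rfl
      rw [n4, n5] at n3
      rw [map_add, map_add, map_zsmul, map_zsmul, n3]
      simp only [smul_eq_mul]
      ring
    exact ⟨a, w, r, s, t, hi, hj, hval, hex, hs, ht, hr, h00, h10, h01, h11, hU2, hdis hr⟩
  obtain ⟨a, w, r, s, t, hi, hj, hval, _, hs, ht, hr, h00, h10, h01, h11, hU, hdis⟩ := key c hc.1 hnc
  have hna : nu a ≠ 0 := by rw [hval nu hnS hnT]; exact hnc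
  -- two classes which differ by `R` are not both non-zero
  have two : ∀ (d : L) (e : ℤ), d ∈ supp D → (e = 1 ∨ e = -1) → (∃ u v : ℤ, d = a + e • R + u • S + v • T) →
      False := by
    rintro d e hd he ⟨u, v, hduv⟩
    have hnd : nu d ≠ 0 := by
      rw [hduv, map_add, map_add, map_add, map_zsmul, map_zsmul, map_zsmul, hnR, hnS, hnT]
      simpa using hna
    obtain ⟨a', _, _, s', t', hi', hj', _, ⟨u', v', hc'⟩, _, _, _, _, _, _, _, hU', _⟩ := key d hd hnd
    have h1 := Submodule.sub_mem _ hU' hU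
    have e1 : a' = a + e • R + (u - u') • S + (v - v') • T := by
      rw [sub_smul, sub_smul]
      have h2 : a' = d - u' • S - v' • T := by rw [hc']; abel
      rw [h2, hduv]; abel
    have e2 : a' + t' • T - (a + t • T) - (u - u') • S =
        e • R + (v - v' + t' - t) • T := by
      rw [e1]
      simp only [sub_smul, add_smul, natCast_zsmul]
      abel
    have h2 := Submodule.sub_mem _ h1 (Submodule.smul_mem _ (u - u') (S_mem eS S D))
    rw [e2] at h2
    rcases he with rfl | rfl
    · rw [one_smul] at h2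
      exact hR _ h2
    · apply hR (-(v - v' + t' - t))
      have h3 := Submodule.neg_mem _ h2
      have h4 : -((-1 : ℤ) • R + (v - v' + t' - t) • T) = R + (-(v - v' + t' - t)) • T := by
        rw [neg_smul, neg_smul, one_smul]; abel
      rwa [h4] at h3
  -- members are in the space of `R`
  have f := f1 O P L phi D R eR m.inj m.bin bR R0
  have mem : ∀ (d : L), d ∈ supp D → (∃ u v : ℤ, d = a + u • S + v • T) → d ∈ US eR R D := by
    rintro d hd ⟨u, v, hduv⟩
    by_contra hdU
    by_cases hfl : ∃ q, phi d q = 1 ∧ phi R q = 1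
    · by_cases hzr : ∃ q, phi d q = 0 ∧ phi R q = 1
      · exact hd ((f d hdU).1 hfl hzr)
      · have hU' : d - R ∉ US eR R D := by
          intro h
          apply hdU
          have h4 := Submodule.add_mem _ h (S_mem eR R D)
          rwa [sub_add_cancel] at h4
        have h4 := (f (d - R) hU').2 fun q => by
          rcases bR q with h | h
          · exact Or.inr h
          · left
            rw [map_sub, Pi.sub_apply, h]
            rcases m.bin d hd q with h5 | h5
            · exact absurd ⟨q, h5, h⟩ hzr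
            · rw [h5]; rfl
        rw [sub_add_cancel] at h4
        have h5 : d - R ∈ supp D := by
          intro h6
          rw [h6, zero_add] at h4
          exact hd ((mul_eq_zero.mp h4).resolve_left eR.ne_zero)
        refine two (d - R) (-1) h5 (Or.inr rfl) ⟨u, v, ?_⟩
        rw [hduv, neg_smul, one_smul]; abel
    · have h4 := (f d hdU).2 fun q => by
        rcases bR q with h | h
        · exact Or.inr h
        · left
          rcases m.bin d hd q with h5 | h5
          · exact h5
          · exact absurd ⟨q, h5, h⟩ hfl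
      have h5 : d + R ∈ supp D := by
        intro h6
        rw [h6, mul_zero, add_zero] at h4
        exact hd h4
      refine two (d + R) 1 h5 (Or.inl rfl) ⟨u, v, ?_⟩
      rw [hduv, one_smul]; abel
  -- three members
  have m00 : ¬ (s = 0 ∧ t = 0) → a ∈ US eR R D := by
    intro h
    refine mem a ?_ ⟨0, 0, by simp⟩
    change D.coeff a ≠ 0
    rw [h00, if_neg h, zero_add]; exact hr
  have m10 : ¬ (s = 1 ∧ t = 0) → a + S ∈ US eR R D := by
    intro h
    refine mem (a + S) ?_ ⟨1, 0, by simp⟩
    rw [if_neg h, zero_sub] at h10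
    intro h1
    rw [h1, mul_zero] at h10
    exact hr (by linear_combination h10)
  have m01 : ¬ (s = 0 ∧ t = 1) → a + T ∈ US eR R D := by
    intro h
    refine mem (a + T) ?_ ⟨0, 1, by simp⟩
    rw [if_neg h, zero_sub] at h01
    intro h1
    rw [h1, mul_zero] at h01
    exact hr (by linear_combination h01)
  have m11 : ¬ (s = 1 ∧ t = 1) → a + S + T ∈ US eR R D := by
    intro h
    refine mem (a + S + T) ?_ ⟨1, 1, by simp⟩
    rw [if_neg h, zero_add] at h11
    intro h1
    rw [h1, mul_zero] at h11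
    exact hr h11.symm
  by_cases hst : s = 1
  · subst hst
    by_cases ht1 : t = 1
    · subst ht1
      apply hS
      have := Submodule.sub_mem _ (m10 (by omega)) (m00 (by omega))
      rwa [add_sub_cancel_left] at this
    · apply hT
      have := Submodule.sub_mem _ (m01 (by omega)) (m00 (by omega))
      rwa [add_sub_cancel_left] at this
  · apply hT
    have := Submodule.sub_mem _ (m11 (by omega)) (m10 (by omega))
    rwa [add_sub_cancel_left] at this

/-- (T2F) If the drop of a distinguished ray is at least two then every double closing of it with a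
neighbour has full rank. -/
theorem full2 (f1 : F1S) (f2 : F2S) (f3 : F3S) (km : KmuS) (rk' : RkS) {phi : L →+ (P → ℤ)}
    {D : AO O L} {eb : L → (RO O)ˣ} {S : L} (h : Dst phi D eb S)
    (hrk : rk {b | Ray D b} = Module.finrank ℤ L)
    (hg : Module.finrank ℤ (US (eb S) S D) + 2 ≤ Module.finrank ℤ L)
    {T : L} (rT : Ray D T) (hT : T ∉ US (eb S) S D) {i j : P}
    (m : Mut phi D S T (eb S) (eb T) i j)
    (x y : (RO O)ˣ) (hx : (x : RO O) ≠ 1) (hy : (y : RO O) ≠ 1) :
    rk (supp (ccl m (eb S * x) (eb T * y))) + 2 = Module.finrank ℤ L := by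
  obtain ⟨R, rR, hRS, hRn, hSR, hTR⟩ := h.third f3 rk' hrk hg hT
  have hRT : R ∉ US (eb T) T D := (h.nbr f3 rk' rR hRS).symm f3 rT hTR |> fun h1 => h1
  refine trip f1 km rk' m hrk (h.bin R rR.1) rR.2.1 rR.1
    (f2 O P L phi D R S (eb S) h.inj h.bin rR h.ray hRS)
    (f2 O P L phi D R T (eb T) h.inj h.bin rR rT hRT) hRn hSR hTR x y hx hy

/-- (VFR) for a distinguished ray `S` and a neighbour `T`. -/
theorem vfrD (f1 : F1S) (f3 : F3S) (km : KmuS) (rk' : RkS) {phi : L →+ (P → ℤ)}
    {D : AO O L} {eb : L → (RO O)ˣ} {S : L} (h : Dst phi D eb S)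
    (hrk : rk {b | Ray D b} = Module.finrank ℤ L)
    {T : L} (rT : Ray D T) (hT : T ∉ US (eb S) S D) {i j : P}
    (m : Mut phi D S T (eb S) (eb T) i j)
    (om om' : (RO O)ˣ) (hom : (om : RO O) ^ 2 - om + 1 = 0) (hom' : (om : RO O) + om' = 1)
    (hcj : ∀ a, phi a i = 0 → phi a j = 0 →
      dco D S T (eb S * om) (eb T * om) a = 0 → dco D S T (eb S * om') (eb T * om') a = 0)
    (hT2 : rk (supp (ccl m (eb S * om) (eb T * om))) + 2 < Module.finrank ℤ L) :
    rk (supp (ccl m (eb S * ux O) (eb T * uz O))) + 2 = Module.finrank ℤ L ∧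
    ∃ b : L, Ray D b ∧ (∀ p, phi b p = 0 ∨ (phi S p = 0 ∧ phi T p = 0)) ∧
      (eb b : RO O) * D.coeff b = eb S * D.coeff S ∧
      ((b ∈ US (eb S) S D ∧ b ∉ US (eb T) T D ∧
          dco D S T (eb S * ux O) (eb T * uz O) b = -(LaurentPolynomial.T 1 * D.coeff b)) ∨
       (b ∈ US (eb T) T D ∧ b ∉ US (eb S) S D ∧
          dco D S T (eb S * ux O) (eb T * uz O) b = LaurentPolynomial.T (-1) * D.coeff b)) :=
  vfr f1 km rk' m h.ray rT hrk om om' hom hom' hcj hT2 eb fun _ rb =>
    ⟨fun hb => h.symm f3 rb hb, fun hb => (h.nbr f3 rk' rT hT).symm f3 rb hb⟩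

end Gen

end Pool.Agent.B5.H47
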