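import Pool.Agent.Lib.MP_b5021c_nt.IfaceG
import Pool.Agent.Lib.MP_b5021c_nt.IfaceS1
import Pool.Agent.Lib.MP_b5021c_nt.B.H71.I1c

/-!
# Board b5, stage 3: mutual pairs of rays (helper47)

Normal form of the classes modulo a mutual pair `(S, T)`, coefficients of the double closings.
-/

namespace Pool.Agent.B5.H47

open scoped LaurentPolynomial
open AddMonoidAlgebra Pool.Agent.B5.H71

set_option linter.unusedSectionVars false

section Gen

variable {O : Type} [CommRing O] [IsDomain O] [IsPrincipalIdealRing O] [Coef O] {P : Type}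
  [Fintype P] [DecidableEq P] {L : Type} [AddCommGroup L] [Module.Free ℤ L] [Module.Finite ℤ L]

/-- A mutual pair: disjoint exponents `S`, `T`, loads `eS`, `eT`, each outside the space of the
other one. -/
structure Mut (phi : L →+ (P → ℤ)) (D : AO O L) (S T : L) (eS eT : (RO O)ˣ) (i j : P) : Prop where
  inj : Function.Injective phi
  bin : ∀ a ∈ supp D, Bin phi a
  bS : Bin phi S
  bT : Bin phi T
  hS : co phi i S = 1
  hT : co phi j T = 1
  dis : ∀ p, phi S p = 0 ∨ phi T p = 0
  TU : T ∉ US eS S D
  SU : S ∉ US eT T D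

theorem Mut.swap {phi : L →+ (P → ℤ)} {D : AO O L} {S T : L} {eS eT : (RO O)ˣ} {i j : P}
    (m : Mut phi D S T eS eT i j) : Mut phi D T S eT eS j i :=
  ⟨m.inj, m.bin, m.bT, m.bS, m.hT, m.hS, fun p => (m.dis p).symm, m.SU, m.TU⟩

theorem Mut.S0 {phi : L →+ (P → ℤ)} {D : AO O L} {S T : L} {eS eT : (RO O)ˣ} {i j : P}
    (m : Mut phi D S T eS eT i j) : S ≠ 0 := by
  rintro rfl
  have := m.hS
  rw [map_zero] at this
  exact zero_ne_one this

theorem Mut.Tij {phi : L →+ (P → ℤ)} {D : AO O L} {S T : L} {eS eT : (RO O)ˣ} {i j : P}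
    (m : Mut phi D S T eS eT i j) : phi T i = 0 := by
  rcases m.dis i with h | h
  · have h2 : phi S i = 1 := m.hS
    omega
  · exact h

/-- The entry `(s, t)` of the class of `a`. -/
noncomputable def ent (D : AO O L) (S T : L) (eS eT : (RO O)ˣ) (a : L) (s t : Fin 2) : RO O :=
  (eS : RO O) ^ (s : ℕ) * (eT : RO O) ^ (t : ℕ) * D.coeff (a + (s : ℕ) • S + (t : ℕ) • T)

theorem phi_mem (phi : L →+ (P → ℤ)) (S T a : L) (s t : ℕ) (q : P) :
    phi (a + s • S + t • T) q = phi a q + s * phi S q + t * phi T q := by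
  rw [map_add, map_add, map_nsmul, map_nsmul, Pi.add_apply, Pi.add_apply, Pi.smul_apply,
    Pi.smul_apply, nsmul_eq_mul, nsmul_eq_mul]

theorem S_mem (eta : (RO O)ˣ) (S : L) (D : AO O L) : S ∈ US eta S D := by
  refine ⟨1, one_ne_zero, ?_⟩
  rw [one_smul]
  exact Submodule.subset_span (Set.mem_insert _ _)

/-- In a class which meets `S` in a proper part there is at most one exponent. -/
theorem part (f1 : F1S) {phi : L →+ (P → ℤ)} {D : AO O L} {S T : L} {eS eT : (RO O)ˣ} {i j : P}
    (m : Mut phi D S T eS eT i j) (a : L) (hi : phi a i = 0) (hj : phi a j = 0)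
    (hp : ∃ p, phi S p = 1 ∧ phi a p ≠ 0) (s t : Fin 2)
    (hb : D.coeff (a + (s : ℕ) • S + (t : ℕ) • T) ≠ 0) :
    (a + (s : ℕ) • S + (t : ℕ) • T ∈ US eS S D) ∧ (a + (s : ℕ) • S + (t : ℕ) • T ∈ US eT T D) ∧
    ∀ s' t' : Fin 2, D.coeff (a + (s' : ℕ) • S + (t' : ℕ) • T) ≠ 0 → s' = s ∧ t' = t := by
  obtain ⟨p, hSp, hap⟩ := hp
  have hTp : phi T p = 0 := by
    rcases m.dis p with h | h
    · omega
    · exact h
  have hSi : phi S i = 1 := m.hS
  have hTi : phi T i = 0 := m.Tij
  have hTj : phi T j = 1 := m.hT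
  have hSj : phi S j = 0 := m.swap.Tij
  -- values at a member
  have vp : ∀ s t : Fin 2, phi (a + (s : ℕ) • S + (t : ℕ) • T) p = phi a p + ((s : ℕ) : ℤ) := by
    intro s t
    rw [phi_mem, hSp, hTp]; ring
  have vi : ∀ s t : Fin 2, phi (a + (s : ℕ) • S + (t : ℕ) • T) i = ((s : ℕ) : ℤ) := by
    intro s t
    rw [phi_mem, hSi, hTi, hi]; ring
  have vj : ∀ s t : Fin 2, phi (a + (s : ℕ) • S + (t : ℕ) • T) j = ((t : ℕ) : ℤ) := by
    intro s t
    rw [phi_mem, hSj, hTj, hj]; ring
  -- each member in the support meets S in a proper part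
  have hpart : ∀ s t : Fin 2, D.coeff (a + (s : ℕ) • S + (t : ℕ) • T) ≠ 0 →
      (∃ q, phi (a + (s : ℕ) • S + (t : ℕ) • T) q = 1 ∧ phi S q = 1) ∧
      (∃ q, phi (a + (s : ℕ) • S + (t : ℕ) • T) q = 0 ∧ phi S q = 1) ∧
      phi a p = 1 - 2 * ((s : ℕ) : ℤ) := by
    intro s t hne
    have hB := m.bin _ hne p
    rw [vp] at hB
    have hI := vi s t
    rcases Fin.exists_fin_two.mp ⟨s, rfl⟩ with h | h
    · have hs : ((s : ℕ) : ℤ) = 0 := by rw [h]; rfl
      rw [hs] at hB
      have h1 : phi a p = 1 := by omega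
      refine ⟨⟨p, ?_, hSp⟩, ⟨i, ?_, hSi⟩, ?_⟩
      · rw [vp, hs, h1]; rfl
      · rw [hI, hs]
      · rw [h1, hs]; rfl
    · have hs : ((s : ℕ) : ℤ) = 1 := by rw [h]; rfl
      rw [hs] at hB
      have h1 : phi a p = -1 := by omega
      refine ⟨⟨i, ?_, hSi⟩, ⟨p, ?_, hSp⟩, ?_⟩
      · rw [hI, hs]
      · rw [vp, hs, h1]; rfl
      · rw [h1, hs]; rfl
  have hUS : ∀ s t : Fin 2, D.coeff (a + (s : ℕ) • S + (t : ℕ) • T) ≠ 0 →
      a + (s : ℕ) • S + (t : ℕ) • T ∈ US eS S D := by
    intro s t hne
    by_contra hU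
    obtain ⟨h1, h2, _⟩ := hpart s t hne
    exact hne ((f1 O P L phi D S eS m.inj m.bin m.bS m.S0 _ hU).1 h1 h2)
  have huniq : ∀ s t s' t' : Fin 2, D.coeff (a + (s : ℕ) • S + (t : ℕ) • T) ≠ 0 →
      D.coeff (a + (s' : ℕ) • S + (t' : ℕ) • T) ≠ 0 → s' = s ∧ t' = t := by
    intro s t s' t' h1 h2
    have e1 := (hpart s t h1).2.2
    have e2 := (hpart s' t' h2).2.2
    have hs : (s' : ℕ) = (s : ℕ) := by
      have h3 : ((s' : ℕ) : ℤ) = (s : ℕ) := by omega
      exact_mod_cast h3
    have hs' : s' = s := Fin.ext hs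
    refine ⟨hs', ?_⟩
    by_contra ht
    subst hs'
    have u1 := hUS _ _ h1
    have u2 := hUS _ _ h2
    apply m.TU
    have h3 : ∀ (x y : Fin 2), x ≠ y → a + (s' : ℕ) • S + (x : ℕ) • T ∈ US eS S D →
        a + (s' : ℕ) • S + (y : ℕ) • T ∈ US eS S D → (x : ℕ) = 0 → T ∈ US eS S D := by
      intro x y hxy hx hy hx0
      have hy1 : (y : ℕ) = 1 := by
        have : (y : ℕ) ≠ (x : ℕ) := fun h => hxy (Fin.ext h.symm)
        omega
      have h4 := Submodule.sub_mem _ hy hx
      rw [hx0, hy1, one_smul, zero_smul, add_zero, add_sub_cancel_left] at h4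
      exact h4
    by_cases ht0 : (t : ℕ) = 0
    · exact h3 t t' (fun h => ht h.symm) u1 u2 ht0
    · have ht0' : (t' : ℕ) = 0 := by
        have : (t : ℕ) ≠ (t' : ℕ) := fun h => ht (Fin.ext h.symm)
        omega
      exact h3 t' t ht u2 u1 ht0'
  refine ⟨hUS s t hb, ?_, fun s' t' h => huniq s t s' t' hb h⟩
  by_contra hU
  have f := f1 O P L phi D T eT m.inj m.bin m.bT m.swap.S0
  -- no proper part of T
  by_cases hfull : ∃ q, phi (a + (s : ℕ) • S + (t : ℕ) • T) q = 1 ∧ phi T q = 1
  · by_cases hzero : ∃ q, phi (a + (s : ℕ) • S + (t : ℕ) • T) q = 0 ∧ phi T q = 1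
    · exact hb ((f _ hU).1 hfull hzero)
    · -- T is contained in the exponent
      have hall : ∀ q, phi T q = 1 → phi (a + (s : ℕ) • S + (t : ℕ) • T) q = 1 := by
        intro q hq
        rcases m.bin _ hb q with h | h
        · exact absurd ⟨q, h, hq⟩ hzero
        · exact h
      have ht1 : (t : ℕ) = 1 := by
        have h1 := hall j hTj
        rw [vj] at h1
        exact_mod_cast h1
      have hU' : a + (s : ℕ) • S ∉ US eT T D := by
        intro h
        apply hU
        rw [ht1, one_smul]
        exact Submodule.add_mem _ h (S_mem _ _ _)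
      have h2 := (f _ hU').2 (by
        intro q
        rcases m.bT q with h | h
        · exact Or.inr h
        · left
          have h3 := hall q h
          rw [ht1, one_smul, map_add, Pi.add_apply, h] at h3
          omega)
      have h3 : D.coeff (a + (s : ℕ) • S + ((0 : Fin 2) : ℕ) • T) ≠ 0 := by
        intro h4
        rw [Fin.val_zero, zero_smul, add_zero] at h4
        rw [h4, zero_add] at h2
        have h5 := (mul_eq_zero.mp h2).resolve_left eT.ne_zero
        rw [ht1, one_smul] at hb
        exact hb h5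
      have h4 := (huniq s t s 0 hb h3).2
      rw [← h4] at ht1
      simp at ht1
  · -- disjoint from T
    have hall : ∀ q, phi T q = 1 → phi (a + (s : ℕ) • S + (t : ℕ) • T) q = 0 := by
      intro q hq
      rcases m.bin _ hb q with h | h
      · exact h
      · exact absurd ⟨q, h, hq⟩ hfull
    have ht0 : (t : ℕ) = 0 := by
      have h1 := hall j hTj
      rw [vj] at h1
      exact_mod_cast h1
    have h2 := (f _ hU).2 (by
      intro q
      rcases m.bT q with h | h
      · exact Or.inr h
      · exact Or.inl (hall q h))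
    have h3 : D.coeff (a + (s : ℕ) • S + ((1 : Fin 2) : ℕ) • T) ≠ 0 := by
      intro h4
      rw [Fin.val_one, one_smul] at h4
      rw [ht0, zero_smul, add_zero] at h2 hb
      rw [h4, mul_zero, add_zero] at h2
      exact hb h2
    have h4 := (huniq s t s 1 hb h3).2
    rw [← h4] at ht0
    simp at ht0

/-- The four relations of a class disjoint from `S` and `T`. -/
theorem rel4 (f1 : F1S) {phi : L →+ (P → ℤ)} {D : AO O L} {S T : L} {eS eT : (RO O)ˣ} {i j : P}
    (m : Mut phi D S T eS eT i j) (a : L)
    (hd : ∀ p, phi a p = 0 ∨ (phi S p = 0 ∧ phi T p = 0)) :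
    (a ∉ US eS S D → D.coeff a + (eS : RO O) * D.coeff (a + S) = 0) ∧
    (a + T ∉ US eS S D → D.coeff (a + T) + (eS : RO O) * D.coeff (a + S + T) = 0) := by
  have f := f1 O P L phi D S eS m.inj m.bin m.bS m.S0
  refine ⟨fun h => (f a h).2 fun p => ?_, fun h => ?_⟩
  · rcases hd p with h1 | h1
    · exact Or.inl h1
    · exact Or.inr h1.1
  · have h2 := (f (a + T) h).2 fun p => by
      rcases m.bS p with h1 | h1
      · exact Or.inr h1
      · left
        rcases hd p with h2 | h2
        · rw [map_add, Pi.add_apply, h2, zero_add]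
          rcases m.dis p with h3 | h3
          · omega
          · exact h3
        · omega
    rwa [add_right_comm] at h2

/-- NORMAL FORM of the class of `a` modulo a mutual pair: `w x^s y^t + r (1 - x) (1 - y)`. -/
theorem nf (f1 : F1S) {phi : L →+ (P → ℤ)} {D : AO O L} {S T : L} {eS eT : (RO O)ˣ} {i j : P}
    (m : Mut phi D S T eS eT i j) (a : L) (hi : phi a i = 0) (hj : phi a j = 0) :
    ∃ (w r : RO O) (s t : ℕ), s ≤ 1 ∧ t ≤ 1 ∧
      D.coeff a = (if s = 0 ∧ t = 0 then w else 0) + r ∧
      (eS : RO O) * D.coeff (a + S) = (if s = 1 ∧ t = 0 then w else 0) - r ∧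
      (eT : RO O) * D.coeff (a + T) = (if s = 0 ∧ t = 1 then w else 0) - r ∧
      (eS : RO O) * (eT : RO O) * D.coeff (a + S + T) = (if s = 1 ∧ t = 1 then w else 0) + r ∧
      (w ≠ 0 → a + s • S + t • T ∈ US eS S D ∧ a + s • S + t • T ∈ US eT T D) ∧
      (r ≠ 0 → ∀ p, phi a p = 0 ∨ (phi S p = 0 ∧ phi T p = 0)) := by
  classical
  by_cases hd : ∀ p, phi a p = 0 ∨ (phi S p = 0 ∧ phi T p = 0)
  · obtain ⟨R0, R1⟩ := rel4 f1 m a hd
    obtain ⟨Q0, Q1⟩ := rel4 f1 m.swap a (fun p => (hd p).imp id And.symm)
    rw [add_right_comm] at Q1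
    have hS : S ∈ US eS S D := S_mem _ _ _
    have hT : T ∈ US eT T D := S_mem _ _ _
    by_cases A0 : a ∈ US eS S D
    · have A1 : a + T ∉ US eS S D := by
        intro h
        apply m.TU
        have h2 := Submodule.sub_mem _ h A0
        rwa [add_sub_cancel_left] at h2
      have r1 := R1 A1
      by_cases B0 : a ∈ US eT T D
      · have B1 : a + S ∉ US eT T D := by
          intro h
          apply m.SU
          have h2 := Submodule.sub_mem _ h B0
          rwa [add_sub_cancel_left] at h2
        have q1 := Q1 B1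
        refine ⟨D.coeff a - (eS : RO O) * (eT : RO O) * D.coeff (a + S + T),
          (eS : RO O) * (eT : RO O) * D.coeff (a + S + T), 0, 0, by omega, by omega, ?_, ?_, ?_, ?_,
          ?_, fun _ => hd⟩
        · simp
        · simp only [zero_ne_one, false_and, if_false]
          linear_combination (eS : RO O) * q1
        · simp only [zero_ne_one, and_false, if_false]
          linear_combination (eT : RO O) * r1
        · simp
        · intro _
          simp only [zero_smul, add_zero]
          exact ⟨A0, B0⟩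
      · have q0 := Q0 B0
        refine ⟨(eS : RO O) * D.coeff (a + S) + D.coeff a, D.coeff a, 1, 0, by omega, by omega, ?_,
          ?_, ?_, ?_, ?_, fun _ => hd⟩
        · simp
        · simp
        · simp only [one_ne_zero, false_and, if_false]
          linear_combination q0
        · simp only [zero_ne_one, and_false, if_false]
          linear_combination (eT : RO O) * r1 - q0
        · intro hw
          simp only [zero_smul, add_zero, one_smul]
          refine ⟨Submodule.add_mem _ A0 hS, ?_⟩
          by_contra B1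
          apply hw
          linear_combination (eS : RO O) * Q1 B1 + q0 - (eT : RO O) * r1
    · have r0 := R0 A0
      by_cases B0 : a ∈ US eT T D
      · have B1 : a + S ∉ US eT T D := by
          intro h
          apply m.SU
          have h2 := Submodule.sub_mem _ h B0
          rwa [add_sub_cancel_left] at h2
        have q1 := Q1 B1
        refine ⟨(eT : RO O) * D.coeff (a + T) + D.coeff a, D.coeff a, 0, 1, by omega, by omega, ?_,
          ?_, ?_, ?_, ?_, fun _ => hd⟩
        · simp
        · simp only [zero_ne_one, false_and, if_false]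
          linear_combination r0
        · simp
        · simp only [zero_ne_one, false_and, if_false]
          linear_combination (eS : RO O) * q1 - r0
        · intro hw
          simp only [zero_smul, add_zero, one_smul]
          refine ⟨?_, Submodule.add_mem _ B0 hT⟩
          by_contra A1
          apply hw
          linear_combination (eT : RO O) * R1 A1 + r0 - (eS : RO O) * q1
      · have q0 := Q0 B0
        refine ⟨(eS : RO O) * (eT : RO O) * D.coeff (a + S + T) - D.coeff a, D.coeff a, 1, 1,
          by omega, by omega, ?_, ?_, ?_, ?_, ?_, fun _ => hd⟩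
        · simp
        · simp only [one_ne_zero, and_false, if_false]
          linear_combination r0
        · simp only [one_ne_zero, false_and, if_false]
          linear_combination q0
        · simp
        · intro hw
          simp only [one_smul]
          constructor
          · by_contra h
            have A1 : a + T ∉ US eS S D := by
              intro h2
              apply h
              rw [add_right_comm]
              exact Submodule.add_mem _ h2 hS
            apply hw
            linear_combination (eT : RO O) * R1 A1 - q0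
          · by_contra h
            have B1 : a + S ∉ US eT T D := fun h2 => h (Submodule.add_mem _ h2 hT)
            apply hw
            linear_combination (eS : RO O) * Q1 B1 - r0
  · -- a class which meets `S` or `T` in a proper part
    have key : ∀ s t : Fin 2, D.coeff (a + (s : ℕ) • S + (t : ℕ) • T) ≠ 0 →
        (a + (s : ℕ) • S + (t : ℕ) • T ∈ US eS S D) ∧ (a + (s : ℕ) • S + (t : ℕ) • T ∈ US eT T D) ∧
        ∀ s' t' : Fin 2, D.coeff (a + (s' : ℕ) • S + (t' : ℕ) • T) ≠ 0 → s' = s ∧ t' = t := by
      intro s t hne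
      have hex : ∃ p, phi a p ≠ 0 ∧ (phi S p ≠ 0 ∨ phi T p ≠ 0) := by
        by_contra h
        apply hd
        intro p
        by_contra h2
        apply h
        refine ⟨p, fun h3 => h2 (Or.inl h3), ?_⟩
        by_contra h4
        rw [not_or, not_not, not_not] at h4
        exact h2 (Or.inr h4)
      obtain ⟨p, hp, hp2⟩ := hex
      rcases hp2 with h | h
      · have h1 : phi S p = 1 := (m.bS p).resolve_left h
        exact part f1 m a hi hj ⟨p, h1, hp⟩ s t hne
      · have h1 : phi T p = 1 := (m.bT p).resolve_left h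
        have h2 := part f1 m.swap a hj hi ⟨p, h1, hp⟩ t s (by rwa [add_right_comm])
        rw [add_right_comm] at h2
        refine ⟨h2.2.1, h2.1, fun s' t' h3 => ?_⟩
        have h4 := h2.2.2 t' s' (by rwa [add_right_comm])
        exact ⟨h4.2, h4.1⟩
    by_cases hall : ∀ s t : Fin 2, D.coeff (a + (s : ℕ) • S + (t : ℕ) • T) = 0
    · have h00 := hall 0 0
      have h10 := hall 1 0
      have h01 := hall 0 1
      have h11 := hall 1 1
      simp only [Fin.val_zero, Fin.val_one, zero_smul, one_smul, add_zero] at h00 h10 h01 h11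
      refine ⟨0, 0, 0, 0, by omega, by omega, ?_, ?_, ?_, ?_, fun h => absurd rfl h,
        fun h => absurd rfl h⟩
      · rw [h00]; simp
      · rw [h10]; simp
      · rw [h01]; simp
      · rw [h11]; simp
    · push Not at hall
      obtain ⟨s, t, hst⟩ := hall
      obtain ⟨k1, k2, k3⟩ := key s t hst
      have hz : ∀ s' t' : Fin 2, ¬ ((s : ℕ) = s' ∧ (t : ℕ) = t') →
          D.coeff (a + (s' : ℕ) • S + (t' : ℕ) • T) = 0 := by
        intro s' t' h
        by_contra h2
        obtain ⟨h3, h4⟩ := k3 s' t' h2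
        exact h ⟨by rw [h3], by rw [h4]⟩
      refine ⟨(eS : RO O) ^ (s : ℕ) * (eT : RO O) ^ (t : ℕ) * D.coeff (a + (s : ℕ) • S + (t : ℕ) • T), 0,
        s, t, by omega, by omega, ?_, ?_, ?_, ?_, fun _ => ⟨k1, k2⟩, fun h => absurd rfl h⟩
      · have h := hz 0 0
        simp only [Fin.val_zero, zero_smul, add_zero] at h
        split_ifs with hc
        · rw [hc.1, hc.2]; simp
        · rw [h hc]; simp
      · have h := hz 1 0
        simp only [Fin.val_zero, Fin.val_one, zero_smul, one_smul, add_zero] at h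
        split_ifs with hc
        · rw [hc.1, hc.2]; simp
        · rw [h hc]; simp
      · have h := hz 0 1
        simp only [Fin.val_zero, Fin.val_one, zero_smul, one_smul, add_zero] at h
        split_ifs with hc
        · rw [hc.1, hc.2]; simp
        · rw [h hc]; simp
      · have h := hz 1 1
        simp only [Fin.val_one, one_smul] at h
        split_ifs with hc
        · rw [hc.1, hc.2]; simp
        · rw [h hc]; simp

/-- The value of the class of `a` at the loads `w^S = e`, `w^T = f`. -/
noncomputable def dco (D : AO O L) (S T : L) (e f : RO O) (a : L) : RO O :=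
  D.coeff a + e * D.coeff (a + S) + f * D.coeff (a + T) + e * f * D.coeff (a + S + T)

/-- All four entries of the class of `a` are zero. -/
def Zcl (D : AO O L) (S T : L) (a : L) : Prop :=
  D.coeff a = 0 ∧ D.coeff (a + S) = 0 ∧ D.coeff (a + T) = 0 ∧ D.coeff (a + S + T) = 0

/-- All four entries of the class of `a` are not zero. -/
def Ncl (D : AO O L) (S T : L) (a : L) : Prop :=
  D.coeff a ≠ 0 ∧ D.coeff (a + S) ≠ 0 ∧ D.coeff (a + T) ≠ 0 ∧ D.coeff (a + S + T) ≠ 0

/-- Normal form with the value of the double closing. -/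
theorem nfv (f1 : F1S) {phi : L →+ (P → ℤ)} {D : AO O L} {S T : L} {eS eT : (RO O)ˣ} {i j : P}
    (m : Mut phi D S T eS eT i j) (a : L) (hi : phi a i = 0) (hj : phi a j = 0) :
    ∃ (w r : RO O) (s t : ℕ), s ≤ 1 ∧ t ≤ 1 ∧
      (∀ x y : RO O, dco D S T (eS * x) (eT * y) a = w * x ^ s * y ^ t + r * (1 - x) * (1 - y)) ∧
      (w = 0 → r = 0 → Zcl D S T a) ∧
      (r ≠ 0 → w + (-1) ^ (s + t) * r ≠ 0 → Ncl D S T a) ∧
      (w ≠ 0 → a + s • S + t • T ∈ US eS S D ∧ a + s • S + t • T ∈ US eT T D) := by
  obtain ⟨w, r, s, t, hs, ht, h00, h10, h01, h11, hU, _⟩ := nf f1 m a hi hj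
  refine ⟨w, r, s, t, hs, ht, fun x y => ?_, fun hw hr => ?_, fun hr hwr => ?_, hU⟩
  · have e1 : dco D S T (eS * x) (eT * y) a = D.coeff a + x * ((eS : RO O) * D.coeff (a + S)) +
        y * ((eT : RO O) * D.coeff (a + T)) +
        x * y * ((eS : RO O) * (eT : RO O) * D.coeff (a + S + T)) := by
      rw [dco]; ring
    rw [e1, h00, h10, h01, h11]
    rcases Nat.le_one_iff_eq_zero_or_eq_one.mp hs with rfl | rfl <;>
      rcases Nat.le_one_iff_eq_zero_or_eq_one.mp ht with rfl | rfl <;> simp <;> ring
  · subst hw hr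
    have z1 : (eS : RO O) * D.coeff (a + S) = 0 := by rw [h10]; simp
    have z2 : (eT : RO O) * D.coeff (a + T) = 0 := by rw [h01]; simp
    have z3 : (eS : RO O) * (eT : RO O) * D.coeff (a + S + T) = 0 := by rw [h11]; simp
    refine ⟨by rw [h00]; simp, (mul_eq_zero.mp z1).resolve_left eS.ne_zero,
      (mul_eq_zero.mp z2).resolve_left eT.ne_zero,
      (mul_eq_zero.mp z3).resolve_left (mul_ne_zero eS.ne_zero eT.ne_zero)⟩
  · have n1 : (eS : RO O) * D.coeff (a + S) ≠ 0 := by
      rw [h10]
      split_ifs with hc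
      · obtain ⟨rfl, rfl⟩ := hc
        intro h; apply hwr; linear_combination h
      · rwa [zero_sub, neg_ne_zero]
    have n2 : (eT : RO O) * D.coeff (a + T) ≠ 0 := by
      rw [h01]
      split_ifs with hc
      · obtain ⟨rfl, rfl⟩ := hc
        intro h; apply hwr; linear_combination h
      · rwa [zero_sub, neg_ne_zero]
    have n3 : (eS : RO O) * (eT : RO O) * D.coeff (a + S + T) ≠ 0 := by
      rw [h11]
      split_ifs with hc
      · obtain ⟨rfl, rfl⟩ := hc
        intro h; apply hwr; linear_combination h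
      · rwa [zero_add]
    have n0 : D.coeff a ≠ 0 := by
      rw [h00]
      split_ifs with hc
      · obtain ⟨rfl, rfl⟩ := hc
        intro h; apply hwr; linear_combination h
      · rwa [zero_add]
    exact ⟨n0, right_ne_zero_of_mul n1, right_ne_zero_of_mul n2, right_ne_zero_of_mul n3⟩

/-- The base of the class of an exponent. -/
theorem base {phi : L →+ (P → ℤ)} {D : AO O L} {S T : L} {eS eT : (RO O)ˣ} {i j : P}
    (m : Mut phi D S T eS eT i j) (c : L) (hc : c ∈ supp D) :
    ∃ a : L, phi a i = 0 ∧ phi a j = 0 ∧ (∀ nu : L →+ ℤ, nu S = 0 → nu T = 0 → nu a = nu c) ∧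
      (Zcl D S T a → False) := by
  have hSi : phi S i = 1 := m.hS
  have hTi : phi T i = 0 := m.Tij
  have hTj : phi T j = 1 := m.hT
  have hSj : phi S j = 0 := m.swap.Tij
  refine ⟨c - phi c i • S - phi c j • T, ?_, ?_, ?_, ?_⟩
  · rw [map_sub, map_sub, map_zsmul, map_zsmul, Pi.sub_apply, Pi.sub_apply, Pi.smul_apply,
      Pi.smul_apply, hSi, hTi]
    simp
  · rw [map_sub, map_sub, map_zsmul, map_zsmul, Pi.sub_apply, Pi.sub_apply, Pi.smul_apply,
      Pi.smul_apply, hSj, hTj]
    simp
  · intro nu h1 h2
    rw [map_sub, map_sub, map_zsmul, map_zsmul, h1, h2]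
    simp
  · rintro ⟨z0, z1, z2, z3⟩
    rcases m.bin c hc i with h1 | h1 <;> rcases m.bin c hc j with h2 | h2 <;>
      rw [h1, h2] at z0 z1 z2 z3 <;> simp only [zero_smul, one_smul, sub_zero] at z0 z1 z2 z3
    · exact hc z0
    · rw [sub_add_cancel] at z2; exact hc z2
    · rw [sub_add_cancel] at z1; exact hc z1
    · apply hc
      have e1 : c - S - T + S + T = c := by abel
      rw [e1] at z3
      exact z3

/-- FULL RANK, core: `mu` kills the exponents of one double closing, `nu` those of the closing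
`(x, y)`. -/
theorem core (f1 : F1S) {phi : L →+ (P → ℤ)} {D : AO O L} {S T : L} {eS eT : (RO O)ˣ} {i j : P}
    (m : Mut phi D S T eS eT i j) (x y : RO O) (mu nu : L →+ ℤ) (b : L) (eb : (RO O)ˣ)
    (hbb : b ∈ supp D) (hb0 : b ≠ 0) (hbU : S ∉ US eb b D ∨ T ∉ US eb b D)
    (hmS : mu S = 0) (hmT : mu T = 0) (hmb : mu b ≠ 0)
    (hmix : ∀ a, phi a i = 0 → phi a j = 0 → mu a ≠ 0 → dco D S T (eS * x) (eT * y) a = 0 →
      Zcl D S T a)
    (hfull : ∀ a, phi a i = 0 → phi a j = 0 → dco D S T (eS * x) (eT * y) a = 0 →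
      Zcl D S T a ∨ Ncl D S T a)
    (hnS : nu S = 0) (hnT : nu T = 0)
    (hnu : ∀ a, phi a i = 0 → phi a j = 0 → nu a ≠ 0 → dco D S T (eS * x) (eT * y) a = 0) :
    ∀ c ∈ supp D, nu c = 0 := by
  have hbin := m.bin b hbb
  have stepA : ∀ c ∈ supp D, mu c ≠ 0 → nu c = 0 := by
    intro c hc hmc
    by_contra hnc
    obtain ⟨a, hi, hj, hval, hz⟩ := base m c hc
    apply hz
    apply hmix a hi hj
    · rw [hval mu hmS hmT]; exact hmc
    · apply hnu a hi hj
      rw [hval nu hnS hnT]; exact hnc
  have hnb : nu b = 0 := stepA b hbb hmb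
  intro c hc
  by_contra hnc
  have hmc : mu c = 0 := by
    by_contra h
    exact hnc (stepA c hc h)
  obtain ⟨a, hi, hj, hval, hz⟩ := base m c hc
  have hna : nu a ≠ 0 := by rw [hval nu hnS hnT]; exact hnc
  have hma : mu a = 0 := by rw [hval mu hmS hmT]; exact hmc
  have hN := (hfull a hi hj (hnu a hi hj hna)).resolve_left hz
  have f := f1 O P L phi D b eb m.inj m.bin hbin hb0
  have stepC : ∀ a' : L, D.coeff a' ≠ 0 → nu a' ≠ 0 → mu a' = 0 → a' ∈ US eb b D := by
    intro a' h1 h2 h3
    by_contra hU
    have f' := f a' hU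
    by_cases hfl : ∃ q, phi a' q = 1 ∧ phi b q = 1
    · by_cases hzr : ∃ q, phi a' q = 0 ∧ phi b q = 1
      · exact h1 (f'.1 hfl hzr)
      · have hU' : a' - b ∉ US eb b D := by
          intro h
          apply hU
          have h4 := Submodule.add_mem _ h (S_mem eb b D)
          rwa [sub_add_cancel] at h4
        have h4 := (f (a' - b) hU').2 fun q => by
          rcases hbin q with h | h
          · exact Or.inr h
          · left
            rw [map_sub, Pi.sub_apply, h]
            rcases m.bin a' h1 q with h5 | h5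
            · exact absurd ⟨q, h5, h⟩ hzr
            · rw [h5]; rfl
        rw [sub_add_cancel] at h4
        have h5 : a' - b ∈ supp D := by
          intro h6
          rw [h6, zero_add] at h4
          exact h1 ((mul_eq_zero.mp h4).resolve_left eb.ne_zero)
        have h6 := stepA _ h5 (by rw [map_sub, h3, zero_sub, neg_ne_zero]; exact hmb)
        rw [map_sub, hnb, sub_zero] at h6
        exact h2 h6
    · have h4 := f'.2 fun q => by
        rcases hbin q with h | h
        · exact Or.inr h
        · left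
          rcases m.bin a' h1 q with h5 | h5
          · exact h5
          · exact absurd ⟨q, h5, h⟩ hfl
      have h5 : a' + b ∈ supp D := by
        intro h6
        rw [h6, mul_zero, add_zero] at h4
        exact h1 h4
      have h6 := stepA _ h5 (by rw [map_add, h3, zero_add]; exact hmb)
      rw [map_add, hnb, add_zero] at h6
      exact h2 h6
  have m0 := stepC a hN.1 hna hma
  have m1 := stepC (a + S) hN.2.1 (by rw [map_add, hnS, add_zero]; exact hna)
    (by rw [map_add, hmS, add_zero]; exact hma)
  have m2 := stepC (a + T) hN.2.2.1 (by rw [map_add, hnT, add_zero]; exact hna)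
    (by rw [map_add, hmT, add_zero]; exact hma)
  rcases hbU with h | h
  · apply h
    have := Submodule.sub_mem _ m1 m0
    rwa [add_sub_cancel_left] at this
  · apply h
    have := Submodule.sub_mem _ m2 m0
    rwa [add_sub_cancel_left] at this

/-! ## The double closing -/

/-- Coefficients of a closing of a multi-affine element. -/
theorem cl_coeff_bin (k : L →+ ℤ) (S : L) (h : k S = 1) (eta : (RO O)ˣ) (D : AO O L)
    (hD : ∀ a ∈ supp D, k a = 0 ∨ k a = 1) (a : Ker k) :
    (cl k S h eta D).coeff a = D.coeff (a : L) + (eta : RO O) * D.coeff ((a : L) + S) := by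
  have hdec := decomp k S h D hD
  have hV : cl k S h eta D = res (Ker k) D +
      cst (eta : RO O) * res (Ker k) (single (-S) 1 * D) := by
    conv_lhs => rw [hdec]
    rw [map_add, map_mul, cl_em, cl_em, cl_single, prj_self, h, zpow_one, one_mul]
    rfl
  rw [hV, coeff_add, Finsupp.add_apply, cst_mul_coeff, res_coeff, res_coeff,
    coeff_single_mul_apply, one_mul, neg_neg, add_comm S]

/-- `T` as an element of the kernel of the port `i` of `S`. -/
def kT {phi : L →+ (P → ℤ)} {D : AO O L} {S T : L} {eS eT : (RO O)ˣ} {i j : P}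
    (m : Mut phi D S T eS eT i j) : Ker (co phi i) := ⟨T, m.Tij⟩

/-- The double closing `w^S = e`, `w^T = f`. -/
noncomputable def ccl {phi : L →+ (P → ℤ)} {D : AO O L} {S T : L} {eS eT : (RO O)ˣ} {i j : P}
    (m : Mut phi D S T eS eT i j) (e f : (RO O)ˣ) : AO O (Ker (co (phK phi (co phi i)) j)) :=
  cl (co (phK phi (co phi i)) j) (kT m) m.hT f (cl (co phi i) S m.hS e D)

/-- The coefficients of the double closing. -/
theorem ccl_coeff {phi : L →+ (P → ℤ)} {D : AO O L} {S T : L} {eS eT : (RO O)ˣ} {i j : P}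
    (m : Mut phi D S T eS eT i j) (e f : (RO O)ˣ) (a : Ker (co (phK phi (co phi i)) j)) :
    (ccl m e f).coeff a = dco D S T e f ((a : Ker (co phi i)) : L) := by
  have h1 : ∀ a : Ker (co phi i), (cl (co phi i) S m.hS e D).coeff a =
      D.coeff (a : L) + (e : RO O) * D.coeff ((a : L) + S) :=
    cl_coeff_bin (co phi i) S m.hS e D (fun a ha => m.bin a ha i)
  have h2 : ∀ a ∈ supp (cl (co phi i) S m.hS e D), (co (phK phi (co phi i)) j) a = 0 ∨
      (co (phK phi (co phi i)) j) a = 1 := by
    intro a ha
    have h3 : (cl (co phi i) S m.hS e D).coeff a ≠ 0 := ha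
    rw [h1] at h3
    change phi (a : L) j = 0 ∨ phi (a : L) j = 1
    by_cases h4 : D.coeff (a : L) = 0
    · rw [h4, zero_add] at h3
      have h5 := m.bin _ (right_ne_zero_of_mul h3) j
      rw [map_add, Pi.add_apply, m.swap.Tij, add_zero] at h5
      exact h5
    · exact m.bin _ h4 j
  rw [ccl, cl_coeff_bin _ _ _ _ _ h2, h1, h1, dco]
  have e1 : (((a : Ker (co phi i)) + kT m : Ker (co phi i)) : L) = ((a : Ker (co phi i)) : L) + T := rfl
  rw [e1, add_right_comm (((a : Ker (co phi i)) : L)) T S]
  ring

/-- The rank of the lattice of the double closing. -/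
theorem rk_ker2 (rk : RkS) {phi : L →+ (P → ℤ)} {D : AO O L} {S T : L} {eS eT : (RO O)ˣ} {i j : P}
    (m : Mut phi D S T eS eT i j) :
    Module.finrank ℤ (Ker (co (phK phi (co phi i)) j)) + 2 = Module.finrank ℤ L := by
  have h1 := (rk L L).1 (co phi i) (by
    intro h
    have := m.hS
    rw [h] at this
    exact zero_ne_one this)
  have h2 := (rk (Ker (co phi i)) (Ker (co phi i))).1 (co (phK phi (co phi i)) j) (by
    intro h
    have := m.hT
    have h3 : (co (phK phi (co phi i)) j) (kT m) = 1 := this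
    rw [h] at h3
    exact zero_ne_one h3)
  omega

/-- A double closing of deficient rank is killed by a functional. -/
theorem kill (km : KmuS) (rk' : RkS) {phi : L →+ (P → ℤ)} {D : AO O L} {S T : L} {eS eT : (RO O)ˣ}
    {i j : P} (m : Mut phi D S T eS eT i j) (e f : (RO O)ˣ)
    (h : rk (supp (ccl m e f)) + 2 < Module.finrank ℤ L) :
    ∃ mu : L →+ ℤ, mu ≠ 0 ∧ mu S = 0 ∧ mu T = 0 ∧
      ∀ a, phi a i = 0 → phi a j = 0 → mu a ≠ 0 → dco D S T e f a = 0 := by
  have h1 := rk_ker2 rk' m
  obtain ⟨mu, hmu, hk⟩ := km _ (supp (ccl m e f)) (by omega)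
  have hSi : phi S i = 1 := m.hS
  have hTi : phi T i = 0 := m.Tij
  have hTj : phi T j = 1 := m.hT
  have hSj : phi S j = 0 := m.swap.Tij
  set pr : L →+ Ker (co (phK phi (co phi i)) j) :=
    (prj (co (phK phi (co phi i)) j) (kT m) m.hT).comp (prj (co phi i) S m.hS) with hpr
  have hval : ∀ a, phi a i = 0 → phi a j = 0 → (((pr a : Ker (co (phK phi (co phi i)) j)) :
      Ker (co phi i)) : L) = a := by
    intro a hi hj
    have e1 : prj (co phi i) S m.hS a = ⟨a, hi⟩ := by
      apply Subtype.ext
      rw [prj_coe]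
      have : (co phi i) a = 0 := hi
      rw [this, zero_smul, sub_zero]
    have e2 : pr a = ⟨⟨a, hi⟩, hj⟩ := by
      rw [hpr]
      change prj (co (phK phi (co phi i)) j) (kT m) m.hT (prj (co phi i) S m.hS a) = _
      rw [e1]
      apply Subtype.ext
      rw [prj_coe]
      have : (co (phK phi (co phi i)) j) (⟨a, hi⟩ : Ker (co phi i)) = 0 := hj
      rw [this, zero_smul, sub_zero]
    rw [e2]
  refine ⟨mu.comp pr, ?_, ?_, ?_, ?_⟩
  · intro h2
    apply hmu
    apply AddMonoidHom.ext
    intro a
    have h3 := DFunLike.congr_fun h2 ((a : Ker (co phi i)) : L)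
    have e3 : pr ((a : Ker (co phi i)) : L) = a := by
      apply Subtype.ext
      apply Subtype.ext
      exact hval _ (a : Ker (co phi i)).2 a.2
    change mu (pr ((a : Ker (co phi i)) : L)) = 0 at h3
    rw [e3] at h3
    exact h3
  · change mu (prj (co (phK phi (co phi i)) j) (kT m) m.hT (prj (co phi i) S m.hS S)) = 0
    rw [prj_self, map_zero, map_zero]
  · have e1 : prj (co phi i) S m.hS T = kT m := by
      apply Subtype.ext
      rw [prj_coe]
      have : (co phi i) T = 0 := hTi
      rw [this, zero_smul, sub_zero]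
      rfl
    change mu (prj (co (phK phi (co phi i)) j) (kT m) m.hT (prj (co phi i) S m.hS T)) = 0
    rw [e1, prj_self, map_zero]
  · intro a hi hj hne
    have h2 : mu (pr a) ≠ 0 := hne
    have h3 : (ccl m e f).coeff (pr a) = 0 := by
      by_contra h4
      exact h2 (hk _ h4)
    rw [ccl_coeff, hval a hi hj] at h3
    exact h3

/-! ## T2 and the closing `(-1/z, z)` -/

/-- Both `T2` closings kill the class: real pattern. -/
theorem pat {om om' : RO O} (hom : om ^ 2 - om + 1 = 0) (hom' : om + om' = 1)
    {w r : RO O} {s t : ℕ} (hs : s ≤ 1) (ht : t ≤ 1)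
    (h1 : w * om ^ s * om ^ t + r * (1 - om) * (1 - om) = 0)
    (h2 : w * om' ^ s * om' ^ t + r * (1 - om') * (1 - om') = 0) :
    (w = 0 ∧ r = 0) ∨ (w = r ∧ s + t = 1) := by
  have e1 : om' = 1 - om := by linear_combination hom'
  have hne : om ≠ 0 := by
    rintro rfl
    simp at hom
  have hd : 2 * om - 1 ≠ 0 := by
    intro h
    have h3 : (3 : RO O) = 0 := by linear_combination 4 * hom - (2 * om - 1) * h
    have h4 := congrArg (evR (1 : Circle)) h3
    rw [map_ofNat, map_zero] at h4
    norm_num at h4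
  subst e1
  rcases Nat.le_one_iff_eq_zero_or_eq_one.mp hs with rfl | rfl <;>
    rcases Nat.le_one_iff_eq_zero_or_eq_one.mp ht with rfl | rfl
  · left
    have h3 : r * (2 * om - 1) = 0 := by linear_combination h2 - h1
    have hr := (mul_eq_zero.mp h3).resolve_right hd
    subst hr
    refine ⟨?_, rfl⟩
    linear_combination h1
  · right
    refine ⟨?_, rfl⟩
    have h3 : om * (w - r) = 0 := by linear_combination h1 - r * hom
    have := (mul_eq_zero.mp h3).resolve_left hne
    linear_combination this
  · right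
    refine ⟨?_, rfl⟩
    have h3 : om * (w - r) = 0 := by linear_combination h1 - r * hom
    have := (mul_eq_zero.mp h3).resolve_left hne
    linear_combination this
  · left
    have h3 : w * (2 * om - 1) = 0 := by
      have h4 : w * om - r = 0 := by
        have h5 : om * (w * om - r) = 0 := by linear_combination h1 - r * hom
        exact (mul_eq_zero.mp h5).resolve_left hne
      have h6 : w * (1 - om) - r = 0 := by
        have h5 : (1 - om) * (w * (1 - om) - r) = 0 := by linear_combination h2 - r * hom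
        refine (mul_eq_zero.mp h5).resolve_left ?_
        intro h7
        rw [h7] at h2
        apply hne
        have h8 : om = 1 := by linear_combination -h7
        rw [h8] at hom
        have h9 : (1 : RO O) = 0 := by linear_combination hom
        exact absurd h9 one_ne_zero
      linear_combination h4 - h6
    have hw := (mul_eq_zero.mp h3).resolve_right hd
    subst hw
    refine ⟨rfl, ?_⟩
    have h5 : om * r = 0 := by linear_combination r * hom - h1
    exact (mul_eq_zero.mp h5).resolve_left hne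

/-- Values of the closing `(-1/z, z)`. -/
theorem xzv (w r : RO O) (s t : ℕ) (hs : s ≤ 1) (ht : t ≤ 1)
    (h : w * (-LaurentPolynomial.T (-1)) ^ s * (LaurentPolynomial.T 1) ^ t +
      r * (1 - -LaurentPolynomial.T (-1)) * (1 - LaurentPolynomial.T 1) = 0) :
    (w = r → s + t = 1 → r = 0) ∧ (w = 0 → r = 0) ∧ (r = 0 → w = 0) ∧
      (r ≠ 0 → w + (-1) ^ (s + t) * r ≠ 0) := by
  have hT : (LaurentPolynomial.T (-1) : RO O) * LaurentPolynomial.T 1 = 1 := by
    rw [← LaurentPolynomial.T_add]; simp
  set z : RO O := LaurentPolynomial.T 1 with hz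
  set zi : RO O := LaurentPolynomial.T (-1) with hzi
  have hz0 : z ≠ 0 := right_ne_zero_of_mul_eq_one hT
  have hzi0 : zi ≠ 0 := left_ne_zero_of_mul_eq_one hT
  have hcoef : ∀ (a b : O), LaurentPolynomial.C a + LaurentPolynomial.C b * z - zi ≠ (0 : RO O) := by
    intro a b h1
    have e1 : LaurentPolynomial.C a + LaurentPolynomial.C b * z - zi =
        (AddMonoidAlgebra.single 0 a + AddMonoidAlgebra.single 1 b - AddMonoidAlgebra.single (-1) 1 :
          RO O) := by
      rw [hz, hzi, LaurentPolynomial.single_eq_C_mul_T, LaurentPolynomial.single_eq_C_mul_T,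
        LaurentPolynomial.single_eq_C_mul_T, LaurentPolynomial.T_zero, mul_one, map_one, one_mul]
    rw [e1] at h1
    have h2 := congrArg (fun p : RO O => p.coeff (-1)) h1
    simp only [coeff_sub, coeff_add, coeff_single, Finsupp.sub_apply, Finsupp.add_apply,
      coeff_zero, Finsupp.zero_apply] at h2
    rw [Finsupp.single_eq_of_ne (by norm_num), Finsupp.single_eq_of_ne (by norm_num),
      Finsupp.single_eq_same] at h2
    apply one_ne_zero (α := O)
    linear_combination -h2
  have k1 : zi - z ≠ 0 := by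
    intro h1
    apply hcoef 0 1
    simp only [map_zero, map_one]
    linear_combination -h1
  have hprod : (1 - -zi) * (1 - z) = zi - z := by linear_combination -hT
  have h' : w * (-zi) ^ s * z ^ t + r * (zi - z) = 0 := by
    rw [← hprod]; linear_combination h
  refine ⟨?_, ?_, ?_, ?_⟩
  · rintro rfl hst
    rcases Nat.le_one_iff_eq_zero_or_eq_one.mp hs with rfl | rfl
    · have : t = 1 := by omega
      subst this
      have h1 : w * zi = 0 := by linear_combination h'
      exact (mul_eq_zero.mp h1).resolve_right hzi0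
    · have : t = 0 := by omega
      subst this
      have h1 : w * z = 0 := by linear_combination -h'
      exact (mul_eq_zero.mp h1).resolve_right hz0
  · rintro rfl
    have h1 : r * (zi - z) = 0 := by linear_combination h'
    exact (mul_eq_zero.mp h1).resolve_right k1
  · rintro rfl
    have h1 : w * ((-zi) ^ s * z ^ t) = 0 := by linear_combination h'
    exact (mul_eq_zero.mp h1).resolve_right
      (mul_ne_zero (pow_ne_zero _ (neg_ne_zero.mpr hzi0)) (pow_ne_zero _ hz0))
  · intro hr hwr
    have hw : w = -((-1) ^ (s + t) * r) := by linear_combination hwr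
    rw [hw] at h'
    rcases Nat.le_one_iff_eq_zero_or_eq_one.mp hs with rfl | rfl <;>
      rcases Nat.le_one_iff_eq_zero_or_eq_one.mp ht with rfl | rfl
    · have h1 : r * (LaurentPolynomial.C 1 + LaurentPolynomial.C 1 * z - zi) = 0 := by
        simp only [map_one]; linear_combination -h'
      exact hcoef 1 1 ((mul_eq_zero.mp h1).resolve_left hr)
    · have h1 : r * zi = 0 := by linear_combination h'
      exact hzi0 ((mul_eq_zero.mp h1).resolve_left hr)
    · have h1 : r * z = 0 := by linear_combination -h'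
      exact hz0 ((mul_eq_zero.mp h1).resolve_left hr)
    · have h1 : r * (LaurentPolynomial.C (-1) + LaurentPolynomial.C 1 * z - zi) = 0 := by
        simp only [map_one, map_neg]; linear_combination -h' + r * hT
      exact hcoef (-1) 1 ((mul_eq_zero.mp h1).resolve_left hr)

/-- A functional which vanishes on a set of full rank is zero. -/
theorem zero_of_rk (rk' : RkS) (nu : L →+ ℤ) (X : Set L) (hX : rk X = Module.finrank ℤ L)
    (h : ∀ a ∈ X, nu a = 0) : nu = 0 := by
  by_contra hn
  have h1 := (rk' L L).1 nu hn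
  have h2 : Submodule.span ℤ X ≤ Ker nu := Submodule.span_le.mpr fun a ha => h a ha
  have h3 := Submodule.finrank_mono h2
  have h4 : Module.finrank ℤ (Submodule.span ℤ X) = Module.finrank ℤ L := hX
  omega

/-- The unit `-1/z`. -/
noncomputable def ux (O : Type) [CommRing O] : (RO O)ˣ where
  val := -LaurentPolynomial.T (-1)
  inv := -LaurentPolynomial.T 1
  val_inv := by rw [neg_mul_neg, ← LaurentPolynomial.T_add]; simp
  inv_val := by rw [neg_mul_neg, ← LaurentPolynomial.T_add]; simp

/-- The unit `z`. -/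
noncomputable def uz (O : Type) [CommRing O] : (RO O)ˣ where
  val := LaurentPolynomial.T 1
  inv := LaurentPolynomial.T (-1)
  val_inv := by rw [← LaurentPolynomial.T_add]; simp
  inv_val := by rw [← LaurentPolynomial.T_add]; simp

/-- The coefficients of mutual rays agree up to the loads. -/
theorem same (f1 : F1S) {phi : L →+ (P → ℤ)} {D : AO O L} {S T : L} {eS eT : (RO O)ˣ}
    (inj : Function.Injective phi) (bin : ∀ a ∈ supp D, Bin phi a) (bS : Bin phi S) (bT : Bin phi T)
    (S0 : S ≠ 0) (T0 : T ≠ 0) (dis : ∀ p, phi S p = 0 ∨ phi T p = 0)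
    (TU : T ∉ US eS S D) (SU : S ∉ US eT T D) :
    (eS : RO O) * D.coeff S = (eT : RO O) * D.coeff T := by
  have h1 := (f1 O P L phi D S eS inj bin bS S0 T TU).2 (fun p => (dis p).symm)
  have h2 := (f1 O P L phi D T eT inj bin bT T0 S SU).2 dis
  rw [add_comm T S] at h1
  linear_combination (eS : RO O) * h2 - (eT : RO O) * h1

/-- (VFR) If `T2` has a drop (real pattern) then the closing `(-1/z, z)` has full rank, and it has a
coefficient which is a unit times the coefficient of `S`. -/
theorem vfr (f1 : F1S) (km : KmuS) (rk' : RkS) {phi : L →+ (P → ℤ)} {D : AO O L} {S T : L}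
    {eS eT : (RO O)ˣ} {i j : P} (m : Mut phi D S T eS eT i j) (rS : Ray D S) (rT : Ray D T)
    (hrk : rk {b | Ray D b} = Module.finrank ℤ L)
    (om om' : (RO O)ˣ) (hom : (om : RO O) ^ 2 - om + 1 = 0) (hom' : (om : RO O) + om' = 1)
    (hcj : ∀ a, phi a i = 0 → phi a j = 0 →
      dco D S T (eS * om) (eT * om) a = 0 → dco D S T (eS * om') (eT * om') a = 0)
    (hT2 : rk (supp (ccl m (eS * om) (eT * om))) + 2 < Module.finrank ℤ L)
    (eb : L → (RO O)ˣ) (heb : ∀ b, Ray D b →
      (b ∉ US eS S D → S ∉ US (eb b) b D) ∧ (b ∉ US eT T D → T ∉ US (eb b) b D)) :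
    rk (supp (ccl m (eS * ux O) (eT * uz O))) + 2 = Module.finrank ℤ L ∧
    ∃ b : L, Ray D b ∧ (∀ p, phi b p = 0 ∨ (phi S p = 0 ∧ phi T p = 0)) ∧
      (eb b : RO O) * D.coeff b = eS * D.coeff S ∧
      ((b ∈ US eS S D ∧ b ∉ US eT T D ∧
          dco D S T (eS * ux O) (eT * uz O) b = -(LaurentPolynomial.T 1 * D.coeff b)) ∨
       (b ∈ US eT T D ∧ b ∉ US eS S D ∧
          dco D S T (eS * ux O) (eT * uz O) b = LaurentPolynomial.T (-1) * D.coeff b)) := by
  obtain ⟨mu, hmu0, hmS, hmT, hmu⟩ := kill km rk' m _ _ hT2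
  obtain ⟨b, rb, hmb⟩ : ∃ b, Ray D b ∧ mu b ≠ 0 := by
    by_contra h
    push Not at h
    exact hmu0 (zero_of_rk rk' mu _ hrk h)
  obtain ⟨lam, hlb, hlam⟩ := rb.2.2
  have hSb : S ≠ b := by rintro rfl; exact hmb hmS
  have hTb : T ≠ b := by rintro rfl; exact hmb hmT
  have hlS : 0 < lam S := hlam S rS.1 m.S0 hSb
  have hlT : 0 < lam T := hlam T rT.1 m.swap.S0 hTb
  -- real pattern
  have hpat : ∀ a, phi a i = 0 → phi a j = 0 → mu a ≠ 0 → ∀ (w r : RO O) (s t : ℕ), s ≤ 1 → t ≤ 1 →
      (∀ x y : RO O, dco D S T (eS * x) (eT * y) a = w * x ^ s * y ^ t + r * (1 - x) * (1 - y)) →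
      (w = 0 ∧ r = 0) ∨ (w = r ∧ s + t = 1) := by
    intro a hi hj hma w r s t hs ht hv
    have h1 := hmu a hi hj hma
    rw [Units.val_mul, Units.val_mul] at h1
    have h2 := hcj a hi hj h1
    rw [hv] at h1 h2
    exact pat hom hom' hs ht h1 h2
  have hux : ((ux O : (RO O)ˣ) : RO O) = -LaurentPolynomial.T (-1) := rfl
  have huz : ((uz O : (RO O)ˣ) : RO O) = LaurentPolynomial.T 1 := rfl
  have hTT : (LaurentPolynomial.T (-1) : RO O) * LaurentPolynomial.T 1 = 1 := by
    rw [← LaurentPolynomial.T_add]; simp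
  -- the class of b
  obtain ⟨a, hi, hj, hval, hz⟩ := base m b rb.1
  have hma : mu a ≠ 0 := by rw [hval mu hmS hmT]; exact hmb
  obtain ⟨w, r, s, t, hs, ht, h00, h10, h01, h11, hU, hdis⟩ := nf f1 m a hi hj
  have hv : ∀ x y : RO O, dco D S T (eS * x) (eT * y) a = w * x ^ s * y ^ t + r * (1 - x) * (1 - y) := by
    intro x y
    have e1 : dco D S T (eS * x) (eT * y) a = D.coeff a + x * ((eS : RO O) * D.coeff (a + S)) +
        y * ((eT : RO O) * D.coeff (a + T)) +
        x * y * ((eS : RO O) * (eT : RO O) * D.coeff (a + S + T)) := by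
      rw [dco]; ring
    rw [e1, h00, h10, h01, h11]
    rcases Nat.le_one_iff_eq_zero_or_eq_one.mp hs with rfl | rfl <;>
      rcases Nat.le_one_iff_eq_zero_or_eq_one.mp ht with rfl | rfl <;> simp <;> ring
  have hr0 : r ≠ 0 := by
    intro hr
    have hw : w = 0 := by
      rcases hpat a hi hj hma w r s t hs ht hv with h | h
      · exact h.1
      · rw [h.1, hr]
    apply hz
    subst hw hr
    have z1 : (eS : RO O) * D.coeff (a + S) = 0 := by rw [h10]; simp
    have z2 : (eT : RO O) * D.coeff (a + T) = 0 := by rw [h01]; simp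
    have z3 : (eS : RO O) * (eT : RO O) * D.coeff (a + S + T) = 0 := by rw [h11]; simp
    exact ⟨by rw [h00]; simp, (mul_eq_zero.mp z1).resolve_left eS.ne_zero,
      (mul_eq_zero.mp z2).resolve_left eT.ne_zero,
      (mul_eq_zero.mp z3).resolve_left (mul_ne_zero eS.ne_zero eT.ne_zero)⟩
  obtain ⟨hwr, hst⟩ : w = r ∧ s + t = 1 := by
    rcases hpat a hi hj hma w r s t hs ht hv with h | h
    · exact absurd h.2 hr0
    · exact h
  have hDa : D.coeff a = r := by
    rw [h00, if_neg (by omega), zero_add]
  have ha0 : a ≠ 0 := by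
    rintro rfl
    exact hma (map_zero mu)
  have hasupp : a ∈ supp D := by
    change D.coeff a ≠ 0
    rw [hDa]; exact hr0
  have hab : a = b := by
    by_contra hne
    have hla : 0 < lam a := hlam a hasupp ha0 hne
    -- b is a + s S + t T
    have hlb' : lam a = lam b - phi b i • lam S - phi b j • lam T := by
      by_contra hcon
      -- use the base formula through the functional trick
      exact hcon (by
        have hSi : phi S i = 1 := m.hS
        have hTj : phi T j = 1 := m.hT
        have hTi : phi T i = 0 := m.Tij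
        have hSj : phi S j = 0 := m.swap.Tij
        -- the functional lam - (lam S) co i - (lam T) co j kills S and T
        let nu : L →+ ℤ := lam - (lam S) • co phi i - (lam T) • co phi j
        have n1 : nu S = 0 := by
          change lam S - (lam S) • phi S i - (lam T) • phi S j = 0
          rw [hSi, hSj]; simp
        have n2 : nu T = 0 := by
          change lam T - (lam S) • phi T i - (lam T) • phi T j = 0
          rw [hTi, hTj]; simp
        have n3 := hval nu n1 n2
        have n4 : nu a = lam a := by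
          change lam a - (lam S) • phi a i - (lam T) • phi a j = lam a
          rw [hi, hj]; simp
        have n5 : nu b = lam b - (lam S) • phi b i - (lam T) • phi b j := rfl
        rw [n4, n5] at n3
        rw [n3]
        simp only [smul_eq_mul]
        ring)
    rw [hlb, smul_eq_mul, smul_eq_mul] at hlb'
    rcases m.bin b rb.1 i with h1 | h1 <;> rcases m.bin b rb.1 j with h2 | h2 <;>
      rw [h1, h2] at hlb' <;> linarith
  subst hab
  have hdis' := hdis hr0
  -- the mutual partner
  have hB : ((a ∈ US eS S D ∧ a ∉ US eT T D ∧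
          dco D S T (eS * ux O) (eT * uz O) a = -(LaurentPolynomial.T 1 * D.coeff a)) ∨
       (a ∈ US eT T D ∧ a ∉ US eS S D ∧
          dco D S T (eS * ux O) (eT * uz O) a = LaurentPolynomial.T (-1) * D.coeff a)) := by
    obtain ⟨u1, u2⟩ := hU (by rw [hwr]; exact hr0)
    rcases Nat.le_one_iff_eq_zero_or_eq_one.mp hs with rfl | rfl
    · have ht1 : t = 1 := by omega
      subst ht1
      rw [zero_smul, add_zero, one_smul] at u1 u2
      right
      refine ⟨?_, ?_, ?_⟩
      · have := Submodule.sub_mem _ u2 (S_mem eT T D)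
        rwa [add_sub_cancel_right] at this
      · intro h
        apply m.TU
        have := Submodule.sub_mem _ u1 h
        rwa [add_sub_cancel_left] at this
      · rw [hv, hux, huz, hDa, hwr]
        linear_combination (-r) * hTT
    · have ht1 : t = 0 := by omega
      subst ht1
      rw [zero_smul, add_zero, one_smul] at u1 u2
      left
      refine ⟨?_, ?_, ?_⟩
      · have := Submodule.sub_mem _ u1 (S_mem eS S D)
        rwa [add_sub_cancel_right] at this
      · intro h
        apply m.SU
        have := Submodule.sub_mem _ u2 h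
        rwa [add_sub_cancel_left] at this
      · rw [hv, hux, huz, hDa, hwr]
        linear_combination (-r) * hTT
  have hbin := m.bin a hasupp
  have hcoef : (eb a : RO O) * D.coeff a = eS * D.coeff S := by
    rcases hB with h | h
    · have h1 := (heb a rb).2 h.2.1
      rw [same f1 m.inj m.bin hbin m.bT ha0 m.swap.S0 (fun p => (hdis' p).imp id And.right) h1 h.2.1,
        same f1 m.inj m.bin m.bS m.bT m.S0 m.swap.S0 m.dis m.TU m.SU]
    · have h1 := (heb a rb).1 h.2.1
      rw [same f1 m.inj m.bin hbin m.bS ha0 m.S0 (fun p => (hdis' p).imp id And.left) h1 h.2.1]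
  refine ⟨?_, a, rb, hdis', hcoef, hB⟩
  -- full rank
  have hk2 := rk_ker2 rk' m
  have hle := (rk' (Ker (co (phK phi (co phi i)) j)) (Ker (co (phK phi (co phi i)) j))).2.2.1
    (supp (ccl m (eS * ux O) (eT * uz O)))
  by_contra hne
  obtain ⟨nu, hnu0, hnS, hnT, hnu⟩ := kill km rk' m (eS * ux O) (eT * uz O) (by omega)
  apply hnu0
  apply zero_of_rk rk' nu {b | Ray D b} hrk
  intro c hc
  refine core f1 m (ux O : RO O) (uz O : RO O) mu nu a (eb a) hasupp ha0 ?_ hmS hmT hma ?_ ?_ hnS
    hnT ?_ c hc.1
  · rcases hB with h | h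
    · exact Or.inr ((heb a rb).2 h.2.1)
    · exact Or.inl ((heb a rb).1 h.2.1)
  · intro a' hi' hj' hma' h1
    obtain ⟨w', r', s', t', hs', ht', hv', hz', _, _⟩ := nfv f1 m a' hi' hj'
    rw [hv', hux, huz] at h1
    obtain ⟨x1, x2, _, _⟩ := xzv w' r' s' t' hs' ht' h1
    rcases hpat a' hi' hj' hma' w' r' s' t' hs' ht' hv' with h | h
    · exact hz' h.1 h.2
    · have h3 := x1 h.1 h.2
      exact hz' (h.1.trans h3) h3
  · intro a' hi' hj' h1
    obtain ⟨w', r', s', t', hs', ht', hv', hz', hn', _⟩ := nfv f1 m a' hi' hj'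
    rw [hv', hux, huz] at h1
    obtain ⟨_, _, x3, x4⟩ := xzv w' r' s' t' hs' ht' h1
    by_cases hr' : r' = 0
    · exact Or.inl (hz' (x3 hr') hr')
    · exact Or.inr (hn' hr' (x4 hr'))
  · intro a' hi' hj' hne'
    have := hnu a' hi' hj' hne'
    rwa [Units.val_mul, Units.val_mul] at this

/-! ## Real elements -/

/-- Conjugation of the coefficients of a Laurent polynomial (`z` is fixed). -/
noncomputable def cjR (O : Type) [CommRing O] [Coef O] : RO O →+* RO O :=
  AddMonoidAlgebra.mapRingHom ℤ (Coef.conj : O ≃+* O).toRingHom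

theorem cj_of_real {D : AO O L} {S T : L} {eS eT om om' : (RO O)ˣ}
    (hD : ∀ a, cjR O (D.coeff a) = D.coeff a) (hS : cjR O (eS : RO O) = eS)
    (hT : cjR O (eT : RO O) = eT) (ho : cjR O (om : RO O) = om') (a : L)
    (h : dco D S T (eS * om) (eT * om) a = 0) : dco D S T (eS * om') (eT * om') a = 0 := by
  have h1 := congrArg (cjR O) h
  simp only [dco, map_add, map_mul, hD, hS, hT, ho, map_zero] at h1
  rw [dco]
  linear_combination h1

end Gen

end Pool.Agent.B5.H47
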